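import Mathlib

/-!
The affine partial quadrangle on `F ^ 4` defined by an elliptic quadratic form:
two points are adjacent when their difference is a nonzero singular vector.
-/

namespace Pool.Agent.Lib.MP_793ea6_al

open Finset

variable {F : Type*} [Field F]

/-- Points of the geometry. -/
abbrev Pt (F : Type*) := F × F × F × F

/-- The quadratic form. -/
def Q (x : Pt F) : F := x.1 * x.2.1 - x.2.2.1 ^ 2 - x.2.2.2 ^ 2

/-- Its polar form. -/
def Bf (x y : Pt F) : F :=
  x.1 * y.2.1 + x.2.1 * y.1 - 2 * x.2.2.1 * y.2.2.1 - 2 * x.2.2.2 * y.2.2.2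

theorem Q_sub (x y : Pt F) : Q (y - x) = Q x + Q y - Bf x y := by
  simp only [Q, Bf, Prod.fst_sub, Prod.snd_sub]; ring

theorem Q_smul (t : F) (x : Pt F) : Q (t • x) = t ^ 2 * Q x := by
  simp only [Q, Prod.smul_fst, Prod.smul_snd, smul_eq_mul]; ring

theorem Q_sub_comm (x y : Pt F) : Q (x - y) = Q (y - x) := by
  simp only [Q, Prod.fst_sub, Prod.snd_sub]; ring

theorem Q_zero : Q (0 : Pt F) = 0 := by simp [Q]

theorem sq_add_sq_eq_zero (h : ¬ IsSquare (-1 : F)) {a b : F} (hab : a ^ 2 + b ^ 2 = 0) :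
    a = 0 ∧ b = 0 := by
  have hb : b = 0 := by
    by_contra hb
    apply h
    refine ⟨a / b, ?_⟩
    field_simp
    linear_combination -hab
  subst hb
  refine ⟨?_, rfl⟩
  simpa using hab

/-- Witt index one: two orthogonal singular vectors are proportional. -/
theorem prop_of_singular (h : ¬ IsSquare (-1 : F)) {x y : Pt F} (hx : Q x = 0) (hy : Q y = 0)
    (hxy : Q (y - x) = 0) (hx0 : x ≠ 0) : ∃ t : F, y = t • x := by
  rw [Q_sub, hx, hy] at hxy
  obtain ⟨x0, x1, x2, x3⟩ := x
  obtain ⟨y0, y1, y2, y3⟩ := y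
  simp only [Q, Bf] at hx hy hxy
  have key : (x0 * y2 - y0 * x2) ^ 2 + (x0 * y3 - y0 * x3) ^ 2 = 0 := by
    linear_combination (-x0 ^ 2) * hy - y0 ^ 2 * hx - x0 * y0 * hxy
  obtain ⟨h2, h3⟩ := sq_add_sq_eq_zero h key
  by_cases h0 : x0 = 0
  · subst h0
    have hx' : x2 ^ 2 + x3 ^ 2 = 0 := by linear_combination -hx
    obtain ⟨rfl, rfl⟩ := sq_add_sq_eq_zero h hx'
    have hx1 : x1 ≠ 0 := by
      rintro rfl
      exact hx0 rfl
    have hy0 : y0 = 0 := by
      have : x1 * y0 = 0 := by linear_combination -hxy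
      exact (mul_eq_zero.mp this).resolve_left hx1
    subst hy0
    have hy' : y2 ^ 2 + y3 ^ 2 = 0 := by linear_combination -hy
    obtain ⟨rfl, rfl⟩ := sq_add_sq_eq_zero h hy'
    refine ⟨y1 / x1, ?_⟩
    simp only [Prod.smul_mk, smul_eq_mul, mul_zero, Prod.mk.injEq, and_true, true_and]
    field_simp
  · refine ⟨y0 / x0, ?_⟩
    simp only [Prod.smul_mk, smul_eq_mul, Prod.mk.injEq]
    refine ⟨by field_simp, ?_, ?_, ?_⟩
    · field_simp
      have : x0 * (x0 * y1 - y0 * x1) = 0 := by
        linear_combination (-x0) * hxy + 2 * x2 * h2 + 2 * x3 * h3 - 2 * y0 * hx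
      have h' := (mul_eq_zero.mp this).resolve_left h0
      linear_combination h'
    · field_simp
      linear_combination h2
    · field_simp
      linear_combination h3

/-- Adjacency (collinearity of distinct points). -/
def adj (u v : Pt F) : Prop := u ≠ v ∧ Q (v - u) = 0

theorem adj_symm {u v : Pt F} (h : adj u v) : adj v u :=
  ⟨h.1.symm, by rw [Q_sub_comm]; exact h.2⟩

theorem adj_irrefl (u : Pt F) : ¬ adj u u := fun h => h.1 rfl

theorem exists_param (h : ¬ IsSquare (-1 : F)) {x y z : Pt F} (hxy : adj x y) (hxz : adj x z)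
    (hyz : adj y z) : ∃ t : F, z = x + t • (y - x) := by
  obtain ⟨t, ht⟩ := prop_of_singular h hxy.2 hxz.2 (by simpa using hyz.2)
    (sub_ne_zero.mpr hxy.1.symm)
  exact ⟨t, by rw [← ht]; abel⟩

theorem diamond (h : ¬ IsSquare (-1 : F)) {x y z₁ z₂ : Pt F} (hxy : adj x y) (h1 : adj x z₁)
    (h1' : adj y z₁) (h2 : adj x z₂) (h2' : adj y z₂) (hne : z₁ ≠ z₂) : adj z₁ z₂ := by
  obtain ⟨t₁, ht₁⟩ := exists_param h hxy h1 h1'
  obtain ⟨t₂, ht₂⟩ := exists_param h hxy h2 h2'
  refine ⟨hne, ?_⟩
  have : z₂ - z₁ = (t₂ - t₁) • (y - x) := by rw [ht₁, ht₂, sub_smul]; abel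
  rw [this, Q_smul, hxy.2, mul_zero]

variable [Fintype F] [DecidableEq F]

open Classical in
/-- Common neighbours. -/
noncomputable def N (u w : Pt F) : Finset (Pt F) := univ.filter (fun x => adj u x ∧ adj w x)

omit [DecidableEq F] in
theorem mem_N {u w x : Pt F} : x ∈ N u w ↔ adj u x ∧ adj w x := by simp [N]

theorem card_N_adj (h : ¬ IsSquare (-1 : F)) {u w : Pt F} (huw : adj u w) :
    (N u w).card = Fintype.card F - 2 := by
  have hne : w - u ≠ 0 := sub_ne_zero.mpr huw.1.symm
  have hc : (((univ : Finset F).erase 0).erase 1).card = Fintype.card F - 2 := by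
    rw [card_erase_of_mem (by simp), card_erase_of_mem (by simp), card_univ]
    omega
  rw [← hc]
  symm
  refine card_nbij (fun t => u + t • (w - u)) ?_ ?_ ?_
  · intro t ht
    simp only [coe_erase, coe_univ, Set.mem_sdiff, Set.mem_univ, Set.mem_singleton_iff,
      true_and] at ht
    simp only [mem_coe, mem_N]
    refine ⟨⟨?_, ?_⟩, ⟨?_, ?_⟩⟩
    · intro h'
      have : t • (w - u) = 0 := by simpa using h'
      exact (smul_ne_zero ht.1 hne) this
    · rw [add_sub_cancel_left, Q_smul, huw.2, mul_zero]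
    · intro h'
      have : (t - 1) • (w - u) = 0 := by
        rw [sub_smul, one_smul, sub_eq_zero]
        exact (sub_eq_of_eq_add' h').symm
      exact (smul_ne_zero (sub_ne_zero.mpr ht.2) hne) this
    · have : u + t • (w - u) - w = (t - 1) • (w - u) := by rw [sub_smul, one_smul]; abel
      rw [this, Q_smul, huw.2, mul_zero]
  · intro s _ t _ hst
    have : s • (w - u) = t • (w - u) := by simpa using hst
    exact smul_left_injective F hne this
  · intro x hx
    simp only [mem_coe, mem_N] at hx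
    obtain ⟨t, ht⟩ := exists_param h huw hx.1 hx.2
    refine ⟨t, ?_, ht.symm⟩
    simp only [coe_erase, coe_univ, Set.mem_sdiff, Set.mem_univ, Set.mem_singleton_iff, true_and]
    constructor
    · rintro rfl
      exact hx.1.1 (by simpa using ht.symm)
    · rintro rfl
      exact hx.2.1 (by simpa using ht.symm)

/-- Singular directions. -/
def dir (p : F × F) : Pt F := (1, p.1 ^ 2 + p.2 ^ 2, p.1, p.2)

omit [Fintype F] [DecidableEq F] in
theorem Q_dir (p : F × F) : Q (dir p) = 0 := by simp only [Q, dir]; ring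

omit [Fintype F] [DecidableEq F] in
theorem dir_inj {p p' : F × F} {a a' : F} (ha : a ≠ 0) (h : a • dir p = a' • dir p') : p = p' := by
  simp only [dir, Prod.smul_mk, smul_eq_mul, mul_one, Prod.mk.injEq] at h
  obtain ⟨rfl, -, h2, h3⟩ := h
  exact Prod.ext (mul_left_cancel₀ ha h2) (mul_left_cancel₀ ha h3)

theorem card_quad_le (a b c : F) (h : a ≠ 0 ∨ b ≠ 0) :
    (univ.filter (fun s : F => a * s ^ 2 + b * s + c = 0)).card ≤ 2 := by
  open Polynomial in
  have hp : (C a * X ^ 2 + C b * X + C c : F[X]) ≠ 0 := by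
    intro h0
    have h2 := congrArg (fun p => coeff p 2) h0
    have h1 := congrArg (fun p => coeff p 1) h0
    simp at h1 h2
    tauto
  refine le_trans (Polynomial.card_le_degree_of_subset_roots
    (p := Polynomial.C a * Polynomial.X ^ 2 + Polynomial.C b * Polynomial.X + Polynomial.C c) ?_)
    Polynomial.natDegree_quadratic_le
  intro s hs
  simp only [filter_val, Multiset.mem_filter, mem_val, mem_univ, true_and] at hs
  rw [Polynomial.mem_roots hp]
  simpa using hs

theorem card_bad_dir (h2 : (2 : F) ≠ 0) (e : Pt F) (he : e ≠ 0) :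
    (univ.filter (fun p : F × F => Bf (dir p) e = 0)).card ≤ 2 * Fintype.card F := by
  obtain ⟨e0, e1, e2, e3⟩ := e
  by_cases hA : e0 ≠ 0 ∨ e2 ≠ 0
  · rw [card_eq_sum_card_fiberwise (f := fun p : F × F => p.2) (t := univ) (fun _ _ => mem_univ _)]
    rw [mul_comm, ← card_univ, ← smul_eq_mul, ← sum_const]
    apply sum_le_sum
    intro t _
    refine le_trans ?_ (card_quad_le e0 (-2 * e2) (e1 + t ^ 2 * e0 - 2 * t * e3) ?_)
    · refine card_le_card_of_injOn (fun p => p.1) ?_ ?_
      · intro p hp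
        simp only [Bf, dir, coe_filter, mem_filter, mem_univ, true_and, Set.mem_ofPred_eq] at hp ⊢
        obtain ⟨h1, rfl⟩ := hp
        linear_combination h1
      · intro p hp p' hp' hpp
        simp only [coe_filter, mem_filter, Set.mem_ofPred_eq] at hp hp'
        exact Prod.ext hpp (hp.2.trans hp'.2.symm)
    · rcases hA with hA | hA
      · exact Or.inl hA
      · exact Or.inr (mul_ne_zero (neg_ne_zero.mpr h2) hA)
  · push Not at hA
    obtain ⟨rfl, rfl⟩ := hA
    by_cases h3 : e3 = 0
    · subst h3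
      have h1 : e1 ≠ 0 := by
        rintro rfl
        exact he rfl
      have : (univ.filter (fun p : F × F => Bf (dir p) ((0 : F), e1, (0 : F), (0 : F)) = 0)) = ∅ := by
        apply filter_eq_empty_iff.mpr
        intro p _
        simpa [Bf, dir] using h1
      rw [this]
      simp
    · rw [card_eq_sum_card_fiberwise (f := fun p : F × F => p.1) (t := univ)
        (fun _ _ => mem_univ _)]
      rw [mul_comm, ← card_univ, ← smul_eq_mul, ← sum_const]
      apply sum_le_sum
      intro s _
      refine le_trans ?_ (card_quad_le 0 (-2 * e3) e1 ?_)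
      · refine card_le_card_of_injOn (fun p => p.2) ?_ ?_
        · intro p hp
          simp only [Bf, dir, coe_filter, mem_filter, mem_univ, true_and,
            Set.mem_ofPred_eq] at hp ⊢
          obtain ⟨h1, rfl⟩ := hp
          linear_combination h1
        · intro p hp p' hp' hpp
          simp only [coe_filter, mem_filter, Set.mem_ofPred_eq] at hp hp'
          exact Prod.ext (hp.2.trans hp'.2.symm) hpp
      · exact Or.inr (mul_ne_zero (neg_ne_zero.mpr h2) h3)

theorem card_good_dir (h2 : (2 : F) ≠ 0) (e e' : Pt F) (he : e ≠ 0) (he' : e' ≠ 0) :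
    Fintype.card F ^ 2 - 4 * Fintype.card F ≤
      (univ.filter (fun p : F × F => Bf (dir p) e ≠ 0 ∧ Bf (dir p) e' ≠ 0)).card := by
  have h1 := card_bad_dir h2 e he
  have h1' := card_bad_dir h2 e' he'
  have h3 := card_filter_add_card_filter_not (s := (univ : Finset (F × F)))
    (fun p : F × F => Bf (dir p) e ≠ 0 ∧ Bf (dir p) e' ≠ 0)
  have h4 : (univ.filter (fun p : F × F => ¬ (Bf (dir p) e ≠ 0 ∧ Bf (dir p) e' ≠ 0))) ⊆
      (univ.filter (fun p : F × F => Bf (dir p) e = 0)) ∪
      (univ.filter (fun p : F × F => Bf (dir p) e' = 0)) := by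
    intro p hp
    simp only [mem_filter, mem_univ, true_and, mem_union] at hp ⊢
    tauto
  have h5 := (card_le_card h4).trans (card_union_le _ _)
  rw [card_univ, Fintype.card_prod] at h3
  rw [pow_two]
  omega

omit [Fintype F] [DecidableEq F] in
theorem Q_point (u v : Pt F) (a : F) (p : F × F) :
    Q (u + a • dir p - v) = Q (v - u) - a * Bf (dir p) (v - u) := by
  have : u + a • dir p - v = a • dir p - (v - u) := by abel
  rw [this, Q_sub, Q_smul, Q_dir]
  simp only [Bf, Prod.smul_fst, Prod.smul_snd, smul_eq_mul]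
  ring

omit [Fintype F] [DecidableEq F] in
theorem adj_point (u : Pt F) {a : F} (ha : a ≠ 0) (p : F × F) : adj u (u + a • dir p) := by
  refine ⟨?_, by rw [add_sub_cancel_left, Q_smul, Q_dir, mul_zero]⟩
  intro h
  have h0 : a • dir p = 0 := by simpa using h
  have := congrArg Prod.fst h0
  simp [dir, ha] at this

/-- Non-adjacent points have many common neighbours. -/
theorem card_N_nonadj (h2 : (2 : F) ≠ 0) {u v : Pt F} (hne : u ≠ v) (huv : ¬ adj u v) :
    Fintype.card F ^ 2 - 4 * Fintype.card F ≤ (N u v).card := by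
  have he : v - u ≠ 0 := sub_ne_zero.mpr hne.symm
  have hQ : Q (v - u) ≠ 0 := fun h => huv ⟨hne, h⟩
  refine (card_good_dir h2 _ _ he he).trans ?_
  refine card_le_card_of_injOn (fun p => u + (Q (v - u) / Bf (dir p) (v - u)) • dir p) ?_ ?_
  · intro p hp
    simp only [coe_filter, mem_univ, true_and, Set.mem_ofPred_eq] at hp
    have ha : Q (v - u) / Bf (dir p) (v - u) ≠ 0 := div_ne_zero hQ hp.1
    simp only [mem_coe, mem_N]
    refine ⟨adj_point u ha p, ?_, ?_⟩
    · intro h
      exact huv (h ▸ adj_point u ha p)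
    · rw [Q_point]
      have := hp.1
      field_simp
      ring
  · intro p hp p' _ hpp
    simp only [coe_filter, mem_univ, true_and, Set.mem_ofPred_eq] at hp
    exact dir_inj (div_ne_zero hQ hp.1) (add_left_cancel hpp)

/-- Many pairwise non-adjacent neighbours of `u` that are far from two other given points. -/
theorem exists_far (h : ¬ IsSquare (-1 : F)) (h2 : (2 : F) ≠ 0) (hq : 4 ≤ Fintype.card F)
    {u v v' : Pt F} (hv : v ≠ u) (hv' : v' ≠ u) :
    ∃ W : Finset (Pt F), Fintype.card F ^ 2 - 4 * Fintype.card F ≤ W.card ∧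
      (∀ w ∈ W, adj u w ∧ (v ≠ w ∧ ¬ adj v w) ∧ (v' ≠ w ∧ ¬ adj v' w)) ∧
      (∀ w ∈ W, ∀ w' ∈ W, ¬ adj w w') := by
  have he : v - u ≠ 0 := sub_ne_zero.mpr hv
  have he' : v' - u ≠ 0 := sub_ne_zero.mpr hv'
  have hex : ∀ p : F × F, ∃ a : F, a ≠ 0 ∧ a ≠ Q (v - u) / Bf (dir p) (v - u) ∧
      a ≠ Q (v' - u) / Bf (dir p) (v' - u) := by
    intro p
    have hlt : ({0, Q (v - u) / Bf (dir p) (v - u), Q (v' - u) / Bf (dir p) (v' - u)} :
        Finset F).card < (univ : Finset F).card := by
      rw [card_univ]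
      exact lt_of_le_of_lt card_le_three (by omega)
    obtain ⟨a, -, ha⟩ := exists_mem_notMem_of_card_lt_card hlt
    simp only [mem_insert, mem_singleton, not_or] at ha
    exact ⟨a, ha⟩
  choose a ha using hex
  have hinj : Function.Injective (fun p => u + a p • dir p) := fun p p' hpp =>
    dir_inj (ha p).1 (add_left_cancel hpp)
  refine ⟨(univ.filter (fun p : F × F => Bf (dir p) (v - u) ≠ 0 ∧
    Bf (dir p) (v' - u) ≠ 0)).image (fun p => u + a p • dir p), ?_, ?_, ?_⟩
  · rw [card_image_of_injective _ hinj]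
    exact card_good_dir h2 _ _ he he'
  · intro w hw
    obtain ⟨p, hp, rfl⟩ := mem_image.mp hw
    simp only [mem_filter, mem_univ, true_and] at hp
    have far : ∀ z : Pt F, Bf (dir p) (z - u) ≠ 0 → a p ≠ Q (z - u) / Bf (dir p) (z - u) →
        z ≠ u + a p • dir p ∧ ¬ adj z (u + a p • dir p) := by
      intro z hz haz
      have hQ : Q (u + a p • dir p - z) ≠ 0 := by
        rw [Q_point]
        intro h0
        apply haz
        field_simp
        linear_combination -h0
      refine ⟨?_, fun hadj => hQ hadj.2⟩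
      intro h0
      apply hQ
      rw [← h0, sub_self, Q_zero]
    exact ⟨adj_point u (ha p).1 p, far v hp.1 (ha p).2.1, far v' hp.2 (ha p).2.2⟩
  · intro w hw w' hw' hadj
    obtain ⟨p, -, rfl⟩ := mem_image.mp hw
    obtain ⟨p', -, rfl⟩ := mem_image.mp hw'
    obtain ⟨t, ht⟩ := exists_param h (adj_point u (ha p).1 p) (adj_point u (ha p').1 p') hadj
    rw [add_sub_cancel_left, smul_smul] at ht
    have := dir_inj (ha p').1 (add_left_cancel ht)
    subst this
    exact adj_irrefl _ hadj

end Pool.Agent.Lib.MP_793ea6_al
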