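import Mathlib
import Pool.Agent.Shared.FunProb
import Pool.Agent.Lib.MP_793ea6_al.Geom

/-!
A random subset of the points of the geometry has all the extension properties we need.
-/

set_option maxHeartbeats 400000

namespace Pool.Agent.Lib.MP_793ea6_al

open Finset Pool.Agent.Shared.FunProb

variable {F : Type*} [Field F] [Fintype F] [DecidableEq F]

/-- `Ev true A f`: some point of `A` is selected; `Ev false A f`: no point of `A` is selected. -/
def Ev (y : Bool) (A : Finset (Pt F)) (f : Pt F → F) : Prop :=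
  if y then ¬ (∀ x ∈ A, f x ≠ 0) else ∀ x ∈ A, f x ≠ 0

omit [Fintype F] [DecidableEq F] in
theorem dep_Ev (y : Bool) (A : Finset (Pt F)) : Dep (Ev y A) A := by
  have h : Dep (fun f : Pt F → F => ∀ x ∈ A, f x ≠ 0) A := by
    intro f g hfg hf x hx
    rw [← hfg x hx]
    exact hf x hx
  cases y
  · intro f g hfg hf
    exact h f g hfg hf
  · have := h.not
    intro f g hfg hf
    exact this f g hfg hf

theorem pow_bounds : (1 / 4 : ℝ) ≤ (1 - 1 / 10007) ^ 10005 ∧
    (1 - 1 / 10007 : ℝ) ^ 10005 ≤ 3 / 4 := by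
  constructor
  · have h1 : (1 / 2 : ℝ) ≤ (1 - 1 / 10007) ^ 5003 := by
      have := one_add_mul_le_pow (a := (-(1 / 10007) : ℝ)) (by norm_num) 5003
      rw [← sub_eq_add_neg] at this
      refine le_trans ?_ this
      norm_num
    have h2 : ((1 - 1 / 10007 : ℝ) ^ 5003) ^ 2 ≤ (1 - 1 / 10007) ^ 10005 := by
      rw [← pow_mul]
      exact pow_le_pow_of_le_one (by norm_num) (by norm_num) (by norm_num)
    refine le_trans ?_ h2
    calc (1 / 4 : ℝ) = (1 / 2) ^ 2 := by norm_num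
      _ ≤ _ := pow_le_pow_left₀ (by norm_num) h1 2
  · have h1 : (1 - 1 / 10007 : ℝ) ≤ Real.exp (-(1 / 10007)) := by
      have := Real.add_one_le_exp (-(1 / 10007))
      linarith
    have h2 : (1 - 1 / 10007 : ℝ) ^ 10005 ≤ Real.exp (-(1 / 10007)) ^ 10005 :=
      pow_le_pow_left₀ (by norm_num) h1 _
    rw [← Real.exp_nat_mul] at h2
    refine h2.trans ?_
    have h3 := Real.add_one_le_exp (10005 / 10007)
    have h4 : Real.exp (((10005 : ℕ) : ℝ) * -(1 / 10007)) = (Real.exp (10005 / 10007))⁻¹ := by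
      rw [← Real.exp_neg]
      congr 1
      norm_num
    rw [h4, inv_le_comm₀ (Real.exp_pos _) (by norm_num)]
    refine le_trans ?_ h3
    norm_num

theorem pr_Ev (hq : Fintype.card F = 10007) (y : Bool) (A : Finset (Pt F))
    (hA : A.card = 10005) : 1 / 4 ≤ pr (Ev y A) := by
  have h := pr_avoid (F := F) A 0
  rw [hq, hA] at h
  have hb := pow_bounds
  rw [Nat.cast_ofNat] at h
  generalize (1 - 1 / 10007 : ℝ) ^ 10005 = t at h hb
  cases y
  · have : Ev false A = fun f : Pt F → F => ∀ x ∈ A, f x ≠ 0 := by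
      funext f; simp [Ev]
    rw [this, h]
    exact hb.1
  · have : Ev true A = fun f : Pt F → F => ¬ ∀ x ∈ A, f x ≠ 0 := by
      funext f; simp [Ev]
    rw [this, pr_not, h]
    linarith [hb.2]

theorem pr_Ev_empty : 1 / 4 ≤ pr (Ev false (∅ : Finset (Pt F))) := by
  have : Ev false (∅ : Finset (Pt F)) = fun _ : Pt F → F => True := by
    funext f; simp [Ev]
  rw [this, pr_true]
  norm_num

theorem pr_trial (hq : Fintype.card F = 10007) (w : Pt F) (y z : Bool) (A B : Finset (Pt F))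
    (hA : 1 / 4 ≤ pr (Ev y A)) (hB : 1 / 4 ≤ pr (Ev z B)) (hwA : w ∉ A) (hwB : w ∉ B)
    (hAB : Disjoint A B) :
    (1 / 160112 : ℝ) ≤ pr (fun f : Pt F → F => f w = 0 ∧ Ev y A f ∧ Ev z B f) := by
  have hw : Dep (fun f : Pt F → F => f w = 0) {w} := by
    intro f g hfg hf
    rwa [← hfg w (mem_singleton_self w)]
  rw [pr_and hw ((dep_Ev y A).and (dep_Ev z B)) (by simp [hwA, hwB]),
    pr_and (dep_Ev y A) (dep_Ev z B) hAB, pr_coord, hq]
  have : (1 / 4 : ℝ) * (1 / 4) ≤ pr (Ev y A) * pr (Ev z B) :=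
    mul_le_mul hA hB (by norm_num) (pr_nonneg _)
  push_cast
  linarith

omit [Fintype F] in
theorem dep_trial (w : Pt F) (y z : Bool) (A B : Finset (Pt F)) :
    Dep (fun f : Pt F → F => f w = 0 ∧ Ev y A f ∧ Ev z B f) ({w} ∪ (A ∪ B)) := by
  have hw : Dep (fun f : Pt F → F => f w = 0) {w} := by
    intro f g hfg hf
    rwa [← hfg w (mem_singleton_self w)]
  exact hw.and ((dep_Ev y A).and (dep_Ev z B))

theorem final_bound (c : ℕ) (hc : c ≤ 6 * 10007 ^ 12) :
    (c : ℝ) * (1 - 1 / 160112) ^ (10007 ^ 2 - 4 * 10007) < 1 := by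
  have h1 : (1 - 1 / 160112 : ℝ) ≤ Real.exp (-(1 / 160112)) := by
    have := Real.add_one_le_exp (-(1 / 160112))
    linarith
  have h2 : (1 - 1 / 160112 : ℝ) ^ (10007 ^ 2 - 4 * 10007)
      ≤ Real.exp (-(1 / 160112)) ^ (10007 ^ 2 - 4 * 10007) :=
    pow_le_pow_left₀ (by norm_num) h1 _
  rw [← Real.exp_nat_mul] at h2
  have h3 : Real.exp (((10007 ^ 2 - 4 * 10007 : ℕ) : ℝ) * -(1 / 160112))
      ≤ Real.exp (-((200 : ℕ) * 1)) := by
    apply Real.exp_le_exp.mpr
    norm_num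
  have h4 : (2 : ℝ) ^ 200 ≤ Real.exp ((200 : ℕ) * 1) := by
    rw [Real.exp_nat_mul]
    apply pow_le_pow_left₀ (by norm_num)
    have := Real.add_one_le_exp 1
    linarith
  have h5 : Real.exp (-((200 : ℕ) * 1)) ≤ ((2 : ℝ) ^ 200)⁻¹ := by
    rw [Real.exp_neg]
    exact inv_anti₀ (by positivity) h4
  have h6 : (c : ℝ) ≤ 6 * 10007 ^ 12 := by exact_mod_cast hc
  have h7 : (1 - 1 / 160112 : ℝ) ^ (10007 ^ 2 - 4 * 10007) ≤ ((2 : ℝ) ^ 200)⁻¹ :=
    h2.trans (h3.trans h5)
  calc (c : ℝ) * (1 - 1 / 160112) ^ (10007 ^ 2 - 4 * 10007)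
      ≤ (6 * 10007 ^ 12) * ((2 : ℝ) ^ 200)⁻¹ :=
        mul_le_mul h6 h7 (pow_nonneg (by norm_num) _) (by positivity)
    _ < 1 := by norm_num

omit [DecidableEq F] in
theorem disj_same (h : ¬ IsSquare (-1 : F)) {u w w' : Pt F} (hw : adj u w) (hw' : adj u w')
    (hne : w ≠ w') (hn : ¬ adj w w') : Disjoint (N u w) (N u w') := by
  classical
  rw [disjoint_left]
  intro x hx hx'
  rw [mem_N] at hx hx'
  exact hn (diamond h hx.1 hw (adj_symm hx.2) hw' (adj_symm hx'.2) hne)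

omit [Fintype F] [DecidableEq F] in
theorem nonadj_of_common (h : ¬ IsSquare (-1 : F)) {u v w w' : Pt F} (hne : u ≠ v)
    (huv : ¬ adj u v) (hw : adj u w ∧ adj v w) (hw' : adj u w' ∧ adj v w') : ¬ adj w w' :=
  fun hadj => huv (diamond h hadj (adj_symm hw.1) (adj_symm hw'.1) (adj_symm hw.2)
    (adj_symm hw'.2) hne)

omit [DecidableEq F] in
theorem disj_cross (h : ¬ IsSquare (-1 : F)) {u v w w' : Pt F} (hne : u ≠ v)
    (huv : ¬ adj u v) (hw : adj u w ∧ adj v w) : Disjoint (N u w) (N v w') := by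
  classical
  rw [disjoint_left]
  intro x hx hx'
  rw [mem_N] at hx hx'
  exact nonadj_of_common h hne huv hw ⟨hx.1, hx'.1⟩ hx.2

/-- The requirements. -/
abbrev Req (F : Type*) [Field F] :=
  {r : (Pt F × Pt F × Pt F) × Bool // r.1.2.1 ≠ r.1.1 ∧ r.1.2.2 ≠ r.1.1} ⊕
  {r : (Pt F × Pt F) × Bool × Bool // r.1.1 ≠ r.1.2 ∧ ¬ adj r.1.1 r.1.2}

theorem exists_selection (h : ¬ IsSquare (-1 : F)) (h2 : (2 : F) ≠ 0)
    (hq : Fintype.card F = 10007) : ∃ f : Pt F → F,
    (∀ (u v v' : Pt F) (y : Bool), v ≠ u → v' ≠ u → ∃ w, f w = 0 ∧ adj u w ∧ Ev y (N u w) f ∧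
      (v ≠ w ∧ ¬ adj v w) ∧ (v' ≠ w ∧ ¬ adj v' w)) ∧
    (∀ (u v : Pt F) (y z : Bool), u ≠ v → ¬ adj u v → ∃ w, f w = 0 ∧ adj u w ∧ adj v w ∧
      Ev y (N u w) f ∧ Ev z (N v w) f) := by
  classical
  have hW := fun (u v v' : Pt F) (hv : v ≠ u) (hv' : v' ≠ u) =>
    exists_far h h2 (by rw [hq]; norm_num) hv hv'
  choose W hW1 hW2 hW3 using hW
  have hN : ∀ u w : Pt F, adj u w → (N u w).card = 10005 := by
    intro u w huw
    rw [card_N_adj h huw, hq]
  let J : Req F → Finset (Pt F) := fun r => match r with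
    | Sum.inl r => W r.1.1.1 r.1.1.2.1 r.1.1.2.2 r.2.1 r.2.2
    | Sum.inr r => N r.1.1.1 r.1.1.2
  let A : Req F → Pt F → Finset (Pt F) := fun r w => match r with
    | Sum.inl r => N r.1.1.1 w
    | Sum.inr r => N r.1.1.1 w
  let B : Req F → Pt F → Finset (Pt F) := fun r w => match r with
    | Sum.inl _ => ∅
    | Sum.inr r => N r.1.1.2 w
  let y : Req F → Bool := fun r => match r with
    | Sum.inl r => r.1.2
    | Sum.inr r => r.1.2.1
  let z : Req F → Bool := fun r => match r with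
    | Sum.inl _ => false
    | Sum.inr r => r.1.2.2
  have hself : ∀ u w : Pt F, w ∉ N u w := fun u w hw => adj_irrefl w (mem_N.mp hw).2
  have hcard : Fintype.card (Req F) ≤ 6 * 10007 ^ 12 := by
    rw [Fintype.card_sum]
    have a1 := Fintype.card_subtype_le
      (fun r : (Pt F × Pt F × Pt F) × Bool => r.1.2.1 ≠ r.1.1 ∧ r.1.2.2 ≠ r.1.1)
    have a2 := Fintype.card_subtype_le
      (fun r : (Pt F × Pt F) × Bool × Bool => r.1.1 ≠ r.1.2 ∧ ¬ adj r.1.1 r.1.2)
    simp only [Fintype.card_prod, hq, Fintype.card_bool] at a1 a2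
    refine le_trans (add_le_add a1 a2) ?_
    norm_num
  obtain ⟨f, hf⟩ := exists_all_succeed (P := Pt F) (F := F) J
    (fun r w f => f w = 0 ∧ Ev (y r) (A r w) f ∧ Ev (z r) (B r w) f)
    (fun r w => {w} ∪ (A r w ∪ B r w)) (1 / 160112) (10007 ^ 2 - 4 * 10007) (by norm_num)
    (by norm_num) (fun r w _ => dep_trial w _ _ _ _)
    (by
      rintro (r | r) w hw w' hw' hne
      · have hn := hW3 _ _ _ _ _ w hw w' hw'
        have hn' := hW3 _ _ _ _ _ w' hw' w hw
        have d := disj_same h (hW2 _ _ _ _ _ w hw).1 (hW2 _ _ _ _ _ w' hw').1 hne hn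
        simp only [A, B, union_empty, disjoint_union_left, disjoint_union_right,
          disjoint_singleton_left, disjoint_singleton_right, mem_singleton, mem_N, mem_union,
          not_or]
        exact ⟨⟨hne.symm, fun hh => hn hh.2⟩, fun hh => hn' hh.2, d⟩
      · have hw1 := mem_N.mp hw
        have hw1' := mem_N.mp hw'
        have hn := nonadj_of_common h r.2.1 r.2.2 hw1 hw1'
        have hn' := nonadj_of_common h r.2.1 r.2.2 hw1' hw1
        have d1 := disj_same h hw1.1 hw1'.1 hne hn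
        have d2 := disj_same h hw1.2 hw1'.2 hne hn
        have d3 := disj_cross (w' := w') h r.2.1 r.2.2 hw1
        have d4 := (disj_cross (w' := w) h r.2.1 r.2.2 hw1').symm
        simp only [A, B, disjoint_union_left, disjoint_union_right,
          disjoint_singleton_left, disjoint_singleton_right, mem_singleton, mem_N, mem_union,
          not_or]
        exact ⟨⟨hne.symm, fun hh => hn hh.2, fun hh => hn hh.2⟩,
          ⟨fun hh => hn' hh.2, d1, d4⟩, fun hh => hn' hh.2, d3, d2⟩)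
    (by
      rintro (r | r) w hw
      · exact pr_trial hq w _ _ _ _ (pr_Ev hq _ _ (hN _ _ (hW2 _ _ _ _ _ w hw).1)) pr_Ev_empty
          (hself _ _) (notMem_empty _) (disjoint_empty_right _)
      · have hw1 := mem_N.mp hw
        exact pr_trial hq w _ _ _ _ (pr_Ev hq _ _ (hN _ _ hw1.1)) (pr_Ev hq _ _ (hN _ _ hw1.2))
          (hself _ _) (hself _ _) (disj_cross h r.2.1 r.2.2 hw1))
    (by
      rintro (r | r)
      · have := hW1 _ _ _ r.2.1 r.2.2
        rwa [hq] at this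
      · have := card_N_nonadj h2 r.2.1 r.2.2
        rwa [hq] at this)
    (final_bound _ hcard)
  refine ⟨f, ?_, ?_⟩
  · intro u v v' y hv hv'
    obtain ⟨w, hw, h0, hE, -⟩ := hf (Sum.inl ⟨((u, v, v'), y), hv, hv'⟩)
    have := hW2 _ _ _ _ _ w hw
    exact ⟨w, h0, this.1, hE, this.2⟩
  · intro u v y z hne huv
    obtain ⟨w, hw, h0, hE, hE'⟩ := hf (Sum.inr ⟨((u, v), y, z), hne, huv⟩)
    have := mem_N.mp hw
    exact ⟨w, h0, this.1, this.2, hE, hE'⟩

end Pool.Agent.Lib.MP_793ea6_al
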