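import Mathlib
import Pool.Agent.Lib.MP_793ea6_al.Random

/-!
The edge colouring of the selected points. Atoms are numbered `0 = 1'`, `1 = a`, `2 = b`, `3 = c`.
-/

set_option maxHeartbeats 400000

namespace Pool.Agent.Lib.MP_793ea6_al

open Finset

variable {F : Type*} [Field F] [Fintype F] [DecidableEq F]

open Classical in
/-- The colour of a pair of points. -/
noncomputable def col (f : Pt F → F) (u v : Pt F) : Fin 4 :=
  if u = v then 0 else if ¬ adj u v then 1 else if Ev true (N u v) f then 2 else 3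

omit [DecidableEq F] in
theorem N_comm (u v : Pt F) : N u v = N v u := by
  ext x
  simp only [mem_N, and_comm]

theorem col_symm (f : Pt F → F) (u v : Pt F) : col f u v = col f v u := by
  have h1 : adj u v ↔ adj v u := ⟨adj_symm, adj_symm⟩
  unfold col
  rw [N_comm u v]
  by_cases huv : u = v
  · rw [if_pos huv, if_pos huv.symm]
  · rw [if_neg huv, if_neg (Ne.symm huv)]
    by_cases ha : adj u v
    · rw [if_neg (not_not.mpr ha), if_neg (not_not.mpr (h1.mp ha))]
    · rw [if_pos ha, if_pos (fun h => ha (h1.mpr h))]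

theorem col_eq_zero (f : Pt F → F) (u v : Pt F) : col f u v = 0 ↔ u = v := by
  unfold col
  split_ifs with h1 h2 h3 <;> simp [h1]

theorem col_far (f : Pt F → F) {u v : Pt F} (h : u ≠ v ∧ ¬ adj u v) : col f u v = 1 := by
  unfold col
  rw [if_neg h.1, if_pos h.2]

theorem col_adj (f : Pt F → F) {u v : Pt F} (h : adj u v) (x : Fin 4) (hx : x = 2 ∨ x = 3)
    (hE : Ev (decide (x = 2)) (N u v) f) : col f u v = x := by
  unfold col
  rw [if_neg h.1, if_neg (not_not.mpr h)]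
  rcases hx with rfl | rfl
  · rw [if_pos (by simpa using hE)]
  · rw [if_neg]
    intro h'
    exact h' hE

theorem adj_of_col (f : Pt F → F) {u v : Pt F} (h : col f u v = 2 ∨ col f u v = 3) : adj u v := by
  unfold col at h
  split_ifs at h with h1 h2 h3
  · simp at h
  · exact h2
  · exact h2
  · simp at h

theorem nonadj_of_col (f : Pt F → F) {u v : Pt F} (h : col f u v = 1) : u ≠ v ∧ ¬ adj u v := by
  unfold col at h
  split_ifs at h with h1 h2 h3
  · simp at h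
  · simp at h
  · simp at h
  · exact ⟨h1, h2⟩

theorem col_triangle (f : Pt F → F) {u v w : Pt F} (huv : adj u v) (huw : adj u w)
    (hvw : adj v w) (hw : f w = 0) : col f u v = 2 := by
  apply col_adj f huv 2 (Or.inl rfl)
  intro h
  exact h w (mem_N.mpr ⟨huw, hvw⟩) hw

theorem exists_of_col_two (f : Pt F → F) {u v : Pt F} (h : col f u v = 2) :
    ∃ w, f w = 0 ∧ adj u w ∧ adj v w := by
  unfold col at h
  split_ifs at h with h1 h2 h3
  · simp at h
  · simp only [Ev, if_true, not_forall, not_not] at h3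
    obtain ⟨w, hw, h0⟩ := h3
    exact ⟨w, h0, mem_N.mp hw⟩
  · simp at h
  · simp at h

/-- The property of a colouring that we need: all triangles avoid `ccc`, `bcc`, `bbc`, and
everything else is realised. -/
def Good {U : Type*} (c : U → U → Fin 4) : Prop :=
    (∀ u v, c u v = 0 ↔ u = v) ∧ (∀ u v, c u v = c v u) ∧
    (∀ u v w, (c u w = 2 ∨ c u w = 3) → (c w v = 2 ∨ c w v = 3) → (c u v = 2 ∨ c u v = 3) →
      c u v = 2) ∧
    (∀ u x, ∃ w, c u w = x) ∧
    (∀ u v x y, u ≠ v → x ≠ 0 → y ≠ 0 → (x = 1 ∨ y = 1 ∨ c u v = 1 ∨ (x = 2 ∧ y = 2 ∧ c u v = 2)) →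
      ∃ w, c u w = x ∧ c w v = y)

theorem fin4_cases (x : Fin 4) (h : x ≠ 0) : x = 1 ∨ (x = 2 ∨ x = 3) := by
  revert x
  decide

theorem exists_good_aux (h : ¬ IsSquare (-1 : F)) (h2 : (2 : F) ≠ 0)
    (hq : Fintype.card F = 10007) : ∃ f : Pt F → F, (∃ u, f u = 0) ∧
      Good (fun u v : {x : Pt F // f x = 0} => col f u.1 v.1) := by
  obtain ⟨f, hI, hII⟩ := exists_selection h h2 hq
  have hnear : ∀ (u v : Pt F) (x : Fin 4), v ≠ u → (x = 2 ∨ x = 3) →
      ∃ w, f w = 0 ∧ col f u w = x ∧ col f v w = 1 := by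
    intro u v x hv hx
    obtain ⟨w, h0, hw, hE, hf, -⟩ := hI u v v (decide (x = 2)) hv hv
    exact ⟨w, h0, col_adj f hw x hx hE, col_far f hf⟩
  have hfar : ∀ u v : Pt F, u ≠ v → ∃ w, f w = 0 ∧ col f u w = 1 ∧ col f v w = 1 := by
    intro u v huv
    obtain ⟨t, -, ht, -, hf, -⟩ := hI u v v true huv.symm huv.symm
    obtain ⟨w, h0, -, -, h1, h2⟩ := hI t u v true ht.1 hf.1
    exact ⟨w, h0, col_far f h1, col_far f h2⟩
  refine ⟨f, ?_, ?_, ?_, ?_, ?_, ?_⟩
  · obtain ⟨v, hv⟩ := exists_ne (0 : Pt F)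
    obtain ⟨w, h0, -⟩ := hfar v 0 hv
    exact ⟨w, h0⟩
  · intro u v
    rw [col_eq_zero, Subtype.ext_iff]
  · intro u v
    exact col_symm f _ _
  · intro u v w h1 h2 h3
    exact col_triangle f (adj_of_col f h3) (adj_of_col f h1) (adj_symm (adj_of_col f h2)) w.2
  · intro u x
    obtain ⟨v, hv⟩ := exists_ne u.1
    by_cases hx : x = 0
    · exact ⟨u, by rw [hx, col_eq_zero]⟩
    rcases fin4_cases x hx with rfl | hx
    · obtain ⟨w, h0, h1, -⟩ := hfar u.1 v hv.symm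
      exact ⟨⟨w, h0⟩, h1⟩
    · obtain ⟨w, h0, h1, -⟩ := hnear u.1 v x hv hx
      exact ⟨⟨w, h0⟩, h1⟩
  · intro u v x y huv hx hy hxy
    have huv' : u.1 ≠ v.1 := fun h => huv (Subtype.ext h)
    rcases fin4_cases x hx with rfl | hx <;> rcases fin4_cases y hy with rfl | hy
    · obtain ⟨w, h0, h1, h2⟩ := hfar u.1 v.1 huv'
      exact ⟨⟨w, h0⟩, h1, (col_symm f _ _).trans h2⟩
    · obtain ⟨w, h0, h1, h2⟩ := hnear v.1 u.1 y huv' hy
      exact ⟨⟨w, h0⟩, h2, (col_symm f _ _).trans h1⟩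
    · obtain ⟨w, h0, h1, h2⟩ := hnear u.1 v.1 x huv'.symm hx
      exact ⟨⟨w, h0⟩, h1, (col_symm f _ _).trans h2⟩
    · rcases hxy with rfl | rfl | h1 | ⟨rfl, rfl, h1⟩
      · simp at hx
      · simp at hy
      · obtain ⟨hne, hn⟩ := nonadj_of_col f h1
        obtain ⟨w, h0, a1, a2, e1, e2⟩ := hII u.1 v.1 (decide (x = 2)) (decide (y = 2)) hne hn
        exact ⟨⟨w, h0⟩, col_adj f a1 x hx e1, (col_symm f _ _).trans (col_adj f a2 y hy e2)⟩
      · obtain ⟨w, h0, a1, a2⟩ := exists_of_col_two f h1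
        have a3 := adj_of_col f (Or.inl h1)
        exact ⟨⟨w, h0⟩, col_triangle f a1 a3 (adj_symm a2) v.2,
          col_triangle f (adj_symm a2) (adj_symm a1) (adj_symm a3) u.2⟩

theorem Good.comp {U V : Type*} {c : U → U → Fin 4} (h : Good c) (e : V ≃ U) :
    Good (fun u v => c (e u) (e v)) := by
  obtain ⟨h0, h1, h2, h3, h4⟩ := h
  refine ⟨fun u v => by rw [h0, e.apply_eq_iff_eq], fun u v => h1 _ _,
    fun u v w => h2 _ _ _, ?_, ?_⟩
  · intro u x
    obtain ⟨w, hw⟩ := h3 (e u) x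
    exact ⟨e.symm w, by simpa using hw⟩
  · intro u v x y huv hx hy hxy
    obtain ⟨w, hw⟩ := h4 (e u) (e v) x y (fun h => huv (e.injective h)) hx hy hxy
    exact ⟨e.symm w, by simpa using hw⟩

theorem exists_good_fin (h : ¬ IsSquare (-1 : F)) (h2 : (2 : F) ≠ 0)
    (hq : Fintype.card F = 10007) : ∃ (n : ℕ) (c : Fin n → Fin n → Fin 4),
      Nonempty (Fin n) ∧ Good c := by
  obtain ⟨f, ⟨u, hu⟩, hf⟩ := exists_good_aux h h2 hq
  obtain ⟨n, ⟨e⟩⟩ := Finite.exists_equiv_fin {x : Pt F // f x = 0}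
  exact ⟨n, _, ⟨e ⟨u, hu⟩⟩, hf.comp e.symm⟩

theorem exists_good : ∃ (n : ℕ) (c : Fin n → Fin n → Fin 4), Nonempty (Fin n) ∧ Good c := by
  have : Fact (Nat.Prime 10007) := ⟨by norm_num⟩
  have hsq : ¬ IsSquare (-1 : ZMod 10007) := by
    rw [ZMod.exists_sq_eq_neg_one_iff]
    norm_num
  have h2 : (2 : ZMod 10007) ≠ 0 := by
    intro h
    have : ((2 : ℕ) : ZMod 10007) = 0 := by exact_mod_cast h
    rw [ZMod.natCast_eq_zero_iff] at this
    norm_num at this
  exact exists_good_fin hsq h2 (ZMod.card 10007)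

end Pool.Agent.Lib.MP_793ea6_al
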