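import Mathlib
import Pool.Agent.Lib.MP_793ea6_al.Colour

/-!
One random labelling of the points of the geometry serves a whole family of selection rules.
-/

set_option maxHeartbeats 400000

namespace Pool.Agent.Lib.MP_793ea6_al.Cof

open Finset Pool.Agent.Shared.FunProb

section Prob

variable {P L : Type*} [Fintype P] [DecidableEq P] [Fintype L] [Nonempty L]

omit [Nonempty L] in
theorem pr_mono {E E' : (P → L) → Prop} (h : ∀ f, E f → E' f) : pr E ≤ pr E' := by
  classical
  unfold pr cnt
  apply div_le_div_of_nonneg_right _ (Nat.cast_nonneg _)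
  exact_mod_cast card_le_card (fun f hf => by
    simp only [mem_filter, mem_univ, true_and] at hf ⊢
    exact h f hf)

omit [Nonempty L] in
theorem pr_or_le (E E' : (P → L) → Prop) : pr (fun f => E f ∨ E' f) ≤ pr E + pr E' := by
  classical
  unfold pr cnt
  rw [← add_div]
  apply div_le_div_of_nonneg_right _ (Nat.cast_nonneg _)
  have : (univ.filter (fun f => E f ∨ E' f)).card ≤ (univ.filter E).card + (univ.filter E').card := by
    rw [filter_or]
    exact card_union_le _ _
  exact_mod_cast (by convert this)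

theorem pr_mem_le (w : P) (S : Finset L) :
    pr (fun f : P → L => f w ∈ S) ≤ S.card / Fintype.card L := by
  classical
  induction S using Finset.induction_on with
  | empty =>
    have := pr_not (fun _ : P → L => True)
    rw [pr_true] at this
    have h2 : pr (fun f : P → L => f w ∈ (∅ : Finset L)) = pr (fun _ : P → L => ¬ True) :=
      pr_congr (fun f => by simp)
    rw [h2, this]
    simp
  | insert a s ha ih =>
    have h2 : pr (fun f : P → L => f w ∈ insert a s) = pr (fun f : P → L => f w = a ∨ f w ∈ s) :=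
      pr_congr (fun f => by simp)
    rw [h2, card_insert_of_notMem ha]
    refine (pr_or_le _ _).trans ?_
    rw [pr_coord]
    push_cast
    rw [add_div]
    linarith

theorem le_pr_mem (w : P) (S : Finset L) (hS : S.Nonempty) :
    1 / (Fintype.card L : ℝ) ≤ pr (fun f : P → L => f w ∈ S) := by
  obtain ⟨a, ha⟩ := hS
  rw [← pr_coord w a]
  exact pr_mono (fun f hf => hf ▸ ha)

theorem pr_none (A : Finset P) (S : P → Finset L) :
    pr (fun f : P → L => ∀ x ∈ A, f x ∉ S x) = ∏ x ∈ A, (1 - pr (fun f : P → L => f x ∈ S x)) := by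
  rw [pr_forall A (fun x f => f x ∉ S x) (fun x => {x})]
  · exact prod_congr rfl (fun x _ => pr_not _)
  · intro x _ f g hfg hf
    rwa [← hfg x (mem_singleton_self x)]
  · intro x _ y _ hxy
    exact disjoint_singleton.mpr hxy

theorem low_bound (q K m : ℕ) (hq : 2 * K ≤ q) (hq0 : 0 < q) (hm : m ≤ q) :
    Real.exp (-(2 * K)) ≤ (1 - (K : ℝ) / q) ^ m := by
  have hq' : (0 : ℝ) < q := by exact_mod_cast hq0
  have hy0 : (0 : ℝ) ≤ K / q := by positivity
  have hy : (K : ℝ) / q ≤ 1 / 2 := by
    rw [div_le_div_iff₀ hq' (by norm_num)]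
    have : ((2 * K : ℕ) : ℝ) ≤ q := by exact_mod_cast hq
    push_cast at this
    linarith
  have h1 : Real.exp (-(2 * ((K : ℝ) / q))) ≤ 1 - (K : ℝ) / q := by
    generalize (K : ℝ) / q = y at hy0 hy
    rw [Real.exp_neg, inv_le_iff_one_le_mul₀ (Real.exp_pos _)]
    have := Real.add_one_le_exp (2 * y)
    nlinarith
  have h2 : Real.exp (-(2 * ((K : ℝ) / q))) ^ q ≤ (1 - (K : ℝ) / q) ^ q :=
    pow_le_pow_left₀ (Real.exp_pos _).le h1 q
  rw [← Real.exp_nat_mul] at h2
  have h3 : (q : ℝ) * -(2 * ((K : ℝ) / q)) = -(2 * K) := by field_simp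
  rw [h3] at h2
  exact h2.trans (pow_le_pow_of_le_one (by linarith) (by linarith) hm)

theorem up_bound (q : ℕ) (hq : 4 ≤ q) : (1 - 1 / (q : ℝ)) ^ (q - 2) ≤ 3 / 4 := by
  have hq' : (4 : ℝ) ≤ q := by exact_mod_cast hq
  have h1 : (1 - 1 / q : ℝ) ≤ Real.exp (-(1 / q)) := by
    have := Real.add_one_le_exp (-(1 / q))
    linarith
  have h0 : (0 : ℝ) ≤ 1 - 1 / q := by
    rw [sub_nonneg, div_le_one (by linarith)]
    linarith
  have h2 := pow_le_pow_left₀ h0 h1 (q - 2)
  rw [← Real.exp_nat_mul] at h2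
  refine h2.trans ?_
  have h3 : (((q - 2 : ℕ) : ℝ) * -(1 / q)) ≤ -(1 / 2) := by
    rw [Nat.cast_sub (by omega)]
    have : ((q : ℝ) - (2 : ℕ)) * -(1 / q) = -(1 - 2 / q) := by
      push_cast
      field_simp
    rw [this]
    have : (2 : ℝ) / q ≤ 1 / 2 := by
      rw [div_le_div_iff₀ (by linarith) (by norm_num)]
      linarith
    linarith
  refine (Real.exp_le_exp.mpr h3).trans ?_
  rw [Real.exp_neg, inv_le_comm₀ (Real.exp_pos _) (by norm_num)]
  have := Real.add_one_le_exp (1 / 2)
  norm_num at this ⊢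
  linarith

end Prob

variable {F : Type*} [Field F] [Fintype F] [DecidableEq F]
variable {L : Type*} [Fintype L] [DecidableEq L] [Nonempty L]

/-- The point `x` is selected (value `0`) when its label lies in `S x`. -/
def sel (S : Pt F → Finset L) (f : Pt F → L) : Pt F → F := fun x => if f x ∈ S x then 0 else 1

omit [Fintype F] [DecidableEq F] [Fintype L] [Nonempty L] in
theorem sel_eq_zero {S : Pt F → Finset L} {f : Pt F → L} {x : Pt F} :
    sel S f x = 0 ↔ f x ∈ S x := by
  unfold sel
  split_ifs with h <;> simp [h]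

omit [Fintype F] [DecidableEq F] [Fintype L] [Nonempty L] in
theorem dep_sel {E : (Pt F → F) → Prop} {T : Finset (Pt F)} (h : Dep E T) (S : Pt F → Finset L) :
    Dep (fun f : Pt F → L => E (sel S f)) T := by
  intro f g hfg hf
  refine h _ _ (fun x hx => ?_) hf
  unfold sel
  rw [hfg x hx]

/-- The constant lower bound for the events on a line. -/
noncomputable def c0 (K : ℕ) : ℝ := Real.exp (-(2 * K)) / 4

theorem c0_pos (K : ℕ) : 0 < c0 K := by unfold c0; positivity

theorem c0_le (K : ℕ) : c0 K ≤ 1 / 4 := by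
  unfold c0
  have : Real.exp (-(2 * (K : ℝ))) ≤ 1 := by
    rw [Real.exp_le_one_iff]
    have : (0 : ℝ) ≤ K := Nat.cast_nonneg K
    linarith
  linarith

theorem pr_Ev' {K : ℕ} (hL : Fintype.card L = Fintype.card F) (hq : 4 ≤ Fintype.card F)
    (hK : 2 * K ≤ Fintype.card F) (S : Pt F → Finset L) (hS1 : ∀ x, (S x).Nonempty)
    (hS2 : ∀ x, (S x).card ≤ K) (y : Bool) (A : Finset (Pt F))
    (hA : A.card = Fintype.card F - 2) : c0 K ≤ pr (fun f : Pt F → L => Ev y A (sel S f)) := by
  have hq' : (0 : ℝ) < Fintype.card F := by exact_mod_cast (by omega : 0 < Fintype.card F)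
  have h := pr_none A S
  cases y
  · have e : pr (fun f : Pt F → L => Ev false A (sel S f))
        = pr (fun f : Pt F → L => ∀ x ∈ A, f x ∉ S x) :=
      pr_congr (fun f => by simp [Ev, sel_eq_zero])
    rw [e, h]
    have hb := low_bound (Fintype.card F) K A.card hK (by omega) (by omega)
    have hK' : (K : ℝ) / Fintype.card F ≤ 1 := by
      rw [div_le_one hq']
      exact_mod_cast (by omega : K ≤ Fintype.card F)
    have : (1 - (K : ℝ) / Fintype.card F) ^ A.card
        ≤ ∏ x ∈ A, (1 - pr (fun f : Pt F → L => f x ∈ S x)) := by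
      rw [← prod_const]
      apply prod_le_prod (fun _ _ => by linarith)
      intro x _
      have h1 := pr_mem_le x (S x)
      rw [hL] at h1
      have h2 : ((S x).card : ℝ) / Fintype.card F ≤ K / Fintype.card F :=
        div_le_div_of_nonneg_right (by exact_mod_cast hS2 x) hq'.le
      linarith
    unfold c0
    have := Real.exp_pos (-(2 * (K : ℝ)))
    linarith
  · have e : pr (fun f : Pt F → L => Ev true A (sel S f))
        = pr (fun f : Pt F → L => ¬ ∀ x ∈ A, f x ∉ S x) :=
      pr_congr (fun f => by simp [Ev, sel_eq_zero])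
    rw [e, pr_not, h]
    have hb := up_bound (Fintype.card F) hq
    have : ∏ x ∈ A, (1 - pr (fun f : Pt F → L => f x ∈ S x))
        ≤ (1 - 1 / (Fintype.card F : ℝ)) ^ (Fintype.card F - 2) := by
      rw [← hA, ← prod_const]
      apply prod_le_prod (fun x _ => by linarith [pr_le_one (fun f : Pt F → L => f x ∈ S x)])
      intro x _
      have h1 := le_pr_mem x (S x) (hS1 x)
      rw [hL] at h1
      linarith
    linarith [c0_le K]

theorem pr_Ev_empty' (K : ℕ) (S : Pt F → Finset L) :
    c0 K ≤ pr (fun f : Pt F → L => Ev false (∅ : Finset (Pt F)) (sel S f)) := by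
  have e : pr (fun f : Pt F → L => Ev false (∅ : Finset (Pt F)) (sel S f))
      = pr (fun _ : Pt F → L => True) := pr_congr (fun f => by simp [Ev])
  rw [e, pr_true]
  linarith [c0_le K]

theorem pr_trial' {K : ℕ} (hL : Fintype.card L = Fintype.card F) (S : Pt F → Finset L)
    (hS1 : ∀ x, (S x).Nonempty) (w : Pt F) (y z : Bool) (A B : Finset (Pt F))
    (hA : c0 K ≤ pr (fun f : Pt F → L => Ev y A (sel S f)))
    (hB : c0 K ≤ pr (fun f : Pt F → L => Ev z B (sel S f))) (hwA : w ∉ A) (hwB : w ∉ B)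
    (hAB : Disjoint A B) :
    c0 K ^ 2 / Fintype.card F ≤
      pr (fun f : Pt F → L => sel S f w = 0 ∧ Ev y A (sel S f) ∧ Ev z B (sel S f)) := by
  have hw : Dep (fun f : Pt F → F => f w = 0) {w} := by
    intro f g hfg hf
    rwa [← hfg w (mem_singleton_self w)]
  rw [pr_and (dep_sel hw S) ((dep_sel (dep_Ev y A) S).and (dep_sel (dep_Ev z B) S))
    (by simp [hwA, hwB]), pr_and (dep_sel (dep_Ev y A) S) (dep_sel (dep_Ev z B) S) hAB]
  have h1 : 1 / (Fintype.card F : ℝ) ≤ pr (fun f : Pt F → L => sel S f w = 0) := by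
    rw [pr_congr (fun f : Pt F → L => sel_eq_zero (S := S) (f := f) (x := w)), ← hL]
    exact le_pr_mem w (S w) (hS1 w)
  have h2 := mul_le_mul hA hB (c0_pos K).le (pr_nonneg _)
  calc c0 K ^ 2 / Fintype.card F = 1 / (Fintype.card F : ℝ) * (c0 K * c0 K) := by ring
    _ ≤ _ := mul_le_mul h1 h2 (mul_nonneg (c0_pos K).le (c0_pos K).le) (pr_nonneg _)

end Pool.Agent.Lib.MP_793ea6_al.Cof
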