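import Mathlib
import Pool.Agent.Lib.MP_793ea6_al.CofA

/-!
The extension properties for every rule of a family, and the colourings of every large size.
-/

set_option maxHeartbeats 400000

namespace Pool.Agent.Lib.MP_793ea6_al.Cof

open Finset Pool.Agent.Shared.FunProb

variable {F : Type*} [Field F] [Fintype F] [DecidableEq F]

/-- The extension properties of the set of points where `f` vanishes. -/
def Ext (f : Pt F → F) : Prop :=
    (∀ (u v v' : Pt F) (y : Bool), v ≠ u → v' ≠ u → ∃ w, f w = 0 ∧ adj u w ∧ Ev y (N u w) f ∧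
      (v ≠ w ∧ ¬ adj v w) ∧ (v' ≠ w ∧ ¬ adj v' w)) ∧
    (∀ (u v : Pt F) (y z : Bool), u ≠ v → ¬ adj u v → ∃ w, f w = 0 ∧ adj u w ∧ adj v w ∧
      Ev y (N u w) f ∧ Ev z (N v w) f)

theorem exists_selection' {L Θ : Type*} [Fintype L] [DecidableEq L] [Nonempty L] [Fintype Θ]
    {K : ℕ} (h : ¬ IsSquare (-1 : F)) (h2 : (2 : F) ≠ 0)
    (hL : Fintype.card L = Fintype.card F) (hq : 4 ≤ Fintype.card F)
    (hK : 2 * K ≤ Fintype.card F) (S : Θ → Pt F → Finset L) (hS1 : ∀ θ x, (S θ x).Nonempty)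
    (hS2 : ∀ θ x, (S θ x).card ≤ K)
    (hfin : ∀ c : ℕ, c ≤ Fintype.card Θ * (6 * Fintype.card F ^ 12) →
      (c : ℝ) * (1 - c0 K ^ 2 / Fintype.card F) ^ (Fintype.card F ^ 2 - 4 * Fintype.card F) < 1) :
    ∃ f : Pt F → L, ∀ θ, Ext (sel (S θ) f) := by
  classical
  have hW := fun (u v v' : Pt F) (hv : v ≠ u) (hv' : v' ≠ u) => exists_far h h2 hq hv hv'
  choose W hW1 hW2 hW3 using hW
  have hN : ∀ u w : Pt F, adj u w → (N u w).card = Fintype.card F - 2 :=
    fun u w huw => card_N_adj h huw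
  let J : Req F → Finset (Pt F) := fun r => match r with
    | Sum.inl r => W r.1.1.1 r.1.1.2.1 r.1.1.2.2 r.2.1 r.2.2
    | Sum.inr r => N r.1.1.1 r.1.1.2
  let A : Req F → Pt F → Finset (Pt F) := fun r w => match r with
    | Sum.inl r => N r.1.1.1 w
    | Sum.inr r => N r.1.1.1 w
  let B : Req F → Pt F → Finset (Pt F) := fun r w => match r with
    | Sum.inl _ => ∅
    | Sum.inr r => N r.1.1.2 w
  let y : Req F → Bool := fun r => match r with
    | Sum.inl r => r.1.2
    | Sum.inr r => r.1.2.1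
  let z : Req F → Bool := fun r => match r with
    | Sum.inl _ => false
    | Sum.inr r => r.1.2.2
  have hself : ∀ u w : Pt F, w ∉ N u w := fun u w hw => adj_irrefl w (mem_N.mp hw).2
  have hcard : Fintype.card (Req F) ≤ 6 * Fintype.card F ^ 12 := by
    rw [Fintype.card_sum]
    have a1 := Fintype.card_subtype_le
      (fun r : (Pt F × Pt F × Pt F) × Bool => r.1.2.1 ≠ r.1.1 ∧ r.1.2.2 ≠ r.1.1)
    have a2 := Fintype.card_subtype_le
      (fun r : (Pt F × Pt F) × Bool × Bool => r.1.1 ≠ r.1.2 ∧ ¬ adj r.1.1 r.1.2)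
    simp only [Fintype.card_prod, Fintype.card_bool] at a1 a2
    refine le_trans (add_le_add a1 a2) ?_
    generalize Fintype.card F = q at hq
    have : q ^ 8 ≤ q ^ 12 := Nat.pow_le_pow_right (by omega) (by norm_num)
    calc _ = 2 * q ^ 12 + 4 * q ^ 8 := by ring
      _ ≤ _ := by omega
  have hq' : (4 : ℝ) ≤ Fintype.card F := by exact_mod_cast hq
  have hδ1 : c0 K ^ 2 / Fintype.card F ≤ 1 := by
    rw [div_le_one (by linarith)]
    nlinarith [c0_le K, c0_pos K]
  obtain ⟨f, hf⟩ := exists_all_succeed (P := Pt F) (F := L) (ρ := Θ × Req F) (fun r => J r.2)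
    (fun r w f => sel (S r.1) f w = 0 ∧ Ev (y r.2) (A r.2 w) (sel (S r.1) f) ∧
      Ev (z r.2) (B r.2 w) (sel (S r.1) f))
    (fun r w => {w} ∪ (A r.2 w ∪ B r.2 w)) (c0 K ^ 2 / Fintype.card F)
    (Fintype.card F ^ 2 - 4 * Fintype.card F) hδ1
    (by positivity) (fun r w _ => dep_sel (dep_trial w _ _ _ _) _)
    (by
      rintro ⟨θ, r | r⟩ w hw w' hw' hne
      · have hn := hW3 _ _ _ _ _ w hw w' hw'
        have hn' := hW3 _ _ _ _ _ w' hw' w hw
        have d := disj_same h (hW2 _ _ _ _ _ w hw).1 (hW2 _ _ _ _ _ w' hw').1 hne hn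
        simp only [A, B, union_empty, disjoint_union_left, disjoint_union_right,
          disjoint_singleton_left, disjoint_singleton_right, mem_singleton, mem_N, mem_union,
          not_or]
        exact ⟨⟨hne.symm, fun hh => hn hh.2⟩, fun hh => hn' hh.2, d⟩
      · have hw1 := mem_N.mp hw
        have hw1' := mem_N.mp hw'
        have hn := nonadj_of_common h r.2.1 r.2.2 hw1 hw1'
        have hn' := nonadj_of_common h r.2.1 r.2.2 hw1' hw1
        have d1 := disj_same h hw1.1 hw1'.1 hne hn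
        have d2 := disj_same h hw1.2 hw1'.2 hne hn
        have d3 := disj_cross (w' := w') h r.2.1 r.2.2 hw1
        have d4 := (disj_cross (w' := w) h r.2.1 r.2.2 hw1').symm
        simp only [A, B, disjoint_union_left, disjoint_union_right,
          disjoint_singleton_left, disjoint_singleton_right, mem_singleton, mem_N, mem_union,
          not_or]
        exact ⟨⟨hne.symm, fun hh => hn hh.2, fun hh => hn hh.2⟩,
          ⟨fun hh => hn' hh.2, d1, d4⟩, fun hh => hn' hh.2, d3, d2⟩)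
    (by
      rintro ⟨θ, r | r⟩ w hw
      · exact pr_trial' hL _ (hS1 θ) w _ _ _ _
          (pr_Ev' hL hq hK _ (hS1 θ) (hS2 θ) _ _ (hN _ _ (hW2 _ _ _ _ _ w hw).1))
          (pr_Ev_empty' K _) (hself _ _) (notMem_empty _) (disjoint_empty_right _)
      · have hw1 := mem_N.mp hw
        exact pr_trial' hL _ (hS1 θ) w _ _ _ _
          (pr_Ev' hL hq hK _ (hS1 θ) (hS2 θ) _ _ (hN _ _ hw1.1))
          (pr_Ev' hL hq hK _ (hS1 θ) (hS2 θ) _ _ (hN _ _ hw1.2))
          (hself _ _) (hself _ _) (disj_cross h r.2.1 r.2.2 hw1))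
    (by
      rintro ⟨θ, r | r⟩
      · exact hW1 _ _ _ r.2.1 r.2.2
      · exact card_N_nonadj h2 r.2.1 r.2.2)
    (hfin _ (by rw [Fintype.card_prod]; exact Nat.mul_le_mul_left _ hcard))
  refine ⟨f, fun θ => ⟨?_, ?_⟩⟩
  · intro u v v' y hv hv'
    obtain ⟨w, hw, h0, hE, -⟩ := hf (θ, Sum.inl ⟨((u, v, v'), y), hv, hv'⟩)
    have := hW2 _ _ _ _ _ w hw
    exact ⟨w, h0, this.1, hE, this.2⟩
  · intro u v y z hne huv
    obtain ⟨w, hw, h0, hE, hE'⟩ := hf (θ, Sum.inr ⟨((u, v), y, z), hne, huv⟩)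
    have := mem_N.mp hw
    exact ⟨w, h0, this.1, this.2, hE, hE'⟩

theorem good_of_ext {f : Pt F → F} (hf : Ext f) :
    Good (fun u v : {x : Pt F // f x = 0} => col f u.1 v.1) := by
  obtain ⟨hI, hII⟩ := hf
  have hnear : ∀ (u v : Pt F) (x : Fin 4), v ≠ u → (x = 2 ∨ x = 3) →
      ∃ w, f w = 0 ∧ col f u w = x ∧ col f v w = 1 := by
    intro u v x hv hx
    obtain ⟨w, h0, hw, hE, hf, -⟩ := hI u v v (decide (x = 2)) hv hv
    exact ⟨w, h0, col_adj f hw x hx hE, col_far f hf⟩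
  have hfar : ∀ u v : Pt F, u ≠ v → ∃ w, f w = 0 ∧ col f u w = 1 ∧ col f v w = 1 := by
    intro u v huv
    obtain ⟨t, -, ht, -, hf, -⟩ := hI u v v true huv.symm huv.symm
    obtain ⟨w, h0, -, -, h1, h2⟩ := hI t u v true ht.1 hf.1
    exact ⟨w, h0, col_far f h1, col_far f h2⟩
  refine ⟨?_, ?_, ?_, ?_, ?_⟩
  · intro u v
    rw [col_eq_zero, Subtype.ext_iff]
  · intro u v
    exact col_symm f _ _
  · intro u v w h1 h2 h3
    exact col_triangle f (adj_of_col f h3) (adj_of_col f h1) (adj_symm (adj_of_col f h2)) w.2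
  · intro u x
    obtain ⟨v, hv⟩ := exists_ne u.1
    by_cases hx : x = 0
    · exact ⟨u, by rw [hx, col_eq_zero]⟩
    rcases fin4_cases x hx with rfl | hx
    · obtain ⟨w, h0, h1, -⟩ := hfar u.1 v hv.symm
      exact ⟨⟨w, h0⟩, h1⟩
    · obtain ⟨w, h0, h1, -⟩ := hnear u.1 v x hv hx
      exact ⟨⟨w, h0⟩, h1⟩
  · intro u v x y huv hx hy hxy
    have huv' : u.1 ≠ v.1 := fun h => huv (Subtype.ext h)
    rcases fin4_cases x hx with rfl | hx <;> rcases fin4_cases y hy with rfl | hy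
    · obtain ⟨w, h0, h1, h2⟩ := hfar u.1 v.1 huv'
      exact ⟨⟨w, h0⟩, h1, (col_symm f _ _).trans h2⟩
    · obtain ⟨w, h0, h1, h2⟩ := hnear v.1 u.1 y huv' hy
      exact ⟨⟨w, h0⟩, h2, (col_symm f _ _).trans h1⟩
    · obtain ⟨w, h0, h1, h2⟩ := hnear u.1 v.1 x huv'.symm hx
      exact ⟨⟨w, h0⟩, h1, (col_symm f _ _).trans h2⟩
    · rcases hxy with rfl | rfl | h1 | ⟨rfl, rfl, h1⟩
      · simp at hx
      · simp at hy
      · obtain ⟨hne, hn⟩ := nonadj_of_col f h1
        obtain ⟨w, h0, a1, a2, e1, e2⟩ := hII u.1 v.1 (decide (x = 2)) (decide (y = 2)) hne hn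
        exact ⟨⟨w, h0⟩, col_adj f a1 x hx e1, (col_symm f _ _).trans (col_adj f a2 y hy e2)⟩
      · obtain ⟨w, h0, a1, a2⟩ := exists_of_col_two f h1
        have a3 := adj_of_col f (Or.inl h1)
        exact ⟨⟨w, h0⟩, col_triangle f a1 a3 (adj_symm a2) v.2,
          col_triangle f (adj_symm a2) (adj_symm a1) (adj_symm a3) u.2⟩

theorem final_bound' (c : ℝ) (hc0 : 0 < c) (hc1 : c ≤ 1) : ∃ q₀ : ℕ, ∀ q : ℕ, q₀ ≤ q →
    ∀ t : ℕ, t ≤ 2 * q ^ 6 * (6 * q ^ 12) → (t : ℝ) * (1 - c / q) ^ (q ^ 2 - 4 * q) < 1 := by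
  have hε : (0 : ℝ) < Real.exp (-(4 * c)) / 24 := by positivity
  have h := (isLittleO_pow_exp_pos_mul_atTop 18 hc0).bound hε
  obtain ⟨x₀, hx₀⟩ := Filter.eventually_atTop.mp h
  refine ⟨max 4 ⌈x₀⌉₊, fun q hq t ht => ?_⟩
  have hq4 : 4 ≤ q := le_of_max_le_left hq
  have hq' : (4 : ℝ) ≤ q := by exact_mod_cast hq4
  have hb := hx₀ q (Nat.ceil_le.mp (le_of_max_le_right hq))
  rw [Real.norm_of_nonneg (by positivity), Real.norm_of_nonneg (Real.exp_pos _).le] at hb
  have h0 : (0 : ℝ) ≤ 1 - c / q := by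
    rw [sub_nonneg, div_le_one (by linarith)]
    linarith
  have h1 : (1 - c / q : ℝ) ≤ Real.exp (-(c / q)) := by
    have := Real.add_one_le_exp (-(c / q))
    linarith
  have h2 := pow_le_pow_left₀ h0 h1 (q ^ 2 - 4 * q)
  rw [← Real.exp_nat_mul, Nat.cast_sub (by nlinarith)] at h2
  have h3 : (((q ^ 2 : ℕ) : ℝ) - ((4 * q : ℕ) : ℝ)) * -(c / q) = 4 * c - c * q := by
    push_cast
    field_simp
    ring
  rw [h3] at h2
  have h4 : (t : ℝ) ≤ 12 * (q : ℝ) ^ 18 := by
    have : ((2 * q ^ 6 * (6 * q ^ 12) : ℕ) : ℝ) = 12 * (q : ℝ) ^ 18 := by push_cast; ring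
    rw [← this]
    exact_mod_cast ht
  have h5 : Real.exp (-(4 * c)) * Real.exp (c * q) * Real.exp (4 * c - c * q) = 1 := by
    rw [← Real.exp_add, ← Real.exp_add, ← Real.exp_zero]
    congr 1
    ring
  calc (t : ℝ) * (1 - c / q) ^ (q ^ 2 - 4 * q)
      ≤ (12 * (Real.exp (-(4 * c)) / 24 * Real.exp (c * q))) * Real.exp (4 * c - c * q) :=
        mul_le_mul (by linarith) h2 (pow_nonneg h0 _) (by positivity)
    _ = 1 / 2 := by linarith
    _ < 1 := by norm_num

theorem nat_ivt (g : ℕ → ℕ) (n M : ℕ) (h0 : g 0 ≤ n) (hM : n ≤ g M)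
    (hs : ∀ j, g (j + 1) ≤ g j + 1) : ∃ j ≤ M, g j = n := by
  induction M with
  | zero => exact ⟨0, le_rfl, by omega⟩
  | succ M ih =>
    by_cases h : n ≤ g M
    · obtain ⟨j, hj, e⟩ := ih h
      exact ⟨j, by omega, e⟩
    · exact ⟨M + 1, le_rfl, by have := hs M; omega⟩

theorem exists_good_range (h : ¬ IsSquare (-1 : F)) (h2 : (2 : F) ≠ 0) {m : ℕ}
    (hm : Fintype.card F = m * 729) (hK : 2 * 730 ≤ Fintype.card F)
    (hfin : ∀ t : ℕ, t ≤ 2 * Fintype.card F ^ 6 * (6 * Fintype.card F ^ 12) →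
      (t : ℝ) * (1 - c0 730 ^ 2 / Fintype.card F) ^ (Fintype.card F ^ 2 - 4 * Fintype.card F) < 1)
    (n : ℕ) (hn1 : Fintype.card F ^ 3 ≤ n) (hn2 : n ≤ 729 * Fintype.card F ^ 3) :
    ∃ c : Fin n → Fin n → Fin 4, Good c := by
  classical
  have hm0 : 0 < m := by omega
  have : Nonempty (Fin m) := ⟨⟨0, hm0⟩⟩
  have hP : Fintype.card (Pt F) = Fintype.card F ^ 4 := by
    simp only [Fintype.card_prod]; ring
  let idx : Pt F → ℕ := fun x => (Fintype.equivFin (Pt F) x).1
  have hidx : Function.Injective idx := fun x y hxy =>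
    (Fintype.equivFin (Pt F)).injective (Fin.ext hxy)
  have hlt : ∀ x, idx x < Fintype.card (Pt F) := fun x => (Fintype.equivFin (Pt F) x).2
  let S : (Fin m × Fin 729) → Fin m → ℕ → Pt F → Finset (Fin m × Fin 729) := fun a b j x =>
    insert a (if idx x < j then ({b} : Finset (Fin m)) ×ˢ univ else ∅)
  have hL : Fintype.card (Fin m × Fin 729) = Fintype.card F := by simp [hm]
  obtain ⟨f, hf⟩ := exists_selection' (L := Fin m × Fin 729)
    (Θ := (Fin m × Fin 729) × Fin m × Fin (Fintype.card (Pt F) + 1)) (K := 730) h h2 hL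
    (by omega) hK (fun θ => S θ.1 θ.2.1 θ.2.2.1) (fun θ x => insert_nonempty _ _)
    (by
      intro θ x
      refine (card_insert_le _ _).trans ?_
      split_ifs <;> simp)
    (by
      intro t ht
      refine hfin t (ht.trans (Nat.mul_le_mul_right _ ?_))
      rw [Fintype.card_prod, hL, Fintype.card_prod, Fintype.card_fin, Fintype.card_fin, hP]
      have a1 : m ≤ Fintype.card F := by omega
      have a2 : Fintype.card F ^ 4 + 1 ≤ 2 * Fintype.card F ^ 4 := by
        have : 0 < Fintype.card F ^ 4 := by positivity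
        omega
      calc _ ≤ Fintype.card F * (Fintype.card F * (2 * Fintype.card F ^ 4)) := by gcongr
        _ = _ := by ring)
  obtain ⟨a, ha⟩ := Fintype.exists_card_fiber_le_of_card_le_mul f (n := Fintype.card F ^ 3)
    (by rw [hL, hP]; exact le_of_eq (by ring))
  obtain ⟨b, hb⟩ := Fintype.exists_le_card_fiber_of_mul_le_card (fun x => (f x).1)
    (n := 729 * Fintype.card F ^ 3) (by
      rw [hP, Fintype.card_fin]
      exact le_of_eq (by rw [pow_succ _ 3]; nth_rw 3 [hm]; ring))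
  have hmem : ∀ j x, f x ∈ S a b j x ↔ (f x = a ∨ (idx x < j ∧ (f x).1 = b)) := by
    intro j x
    simp only [S, mem_insert]
    split_ifs with hj
    · simp only [mem_product, mem_singleton, mem_univ, and_true, hj, true_and]
    · simp [hj]
  obtain ⟨j, hj, e⟩ := nat_ivt (fun j => (univ.filter (fun x => f x ∈ S a b j x)).card) n
    (Fintype.card (Pt F))
    (by
      refine le_trans (card_le_card ?_) (ha.trans hn1)
      intro x hx
      simpa [hmem] using hx)
    (by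
      refine hn2.trans (hb.trans (card_le_card ?_))
      intro x hx
      simp only [mem_filter, mem_univ, true_and, hmem] at hx ⊢
      exact Or.inr ⟨hlt x, hx⟩)
    (by
      intro j
      have hsub : univ.filter (fun x => f x ∈ S a b (j + 1) x) ⊆
          univ.filter (fun x => f x ∈ S a b j x) ∪ univ.filter (fun x => idx x = j) := by
        intro x hx
        simp only [mem_filter, mem_univ, true_and, hmem, mem_union] at hx ⊢
        rcases hx with hx | ⟨h1, h2⟩
        · exact Or.inl (Or.inl hx)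
        · rcases Nat.lt_succ_iff_lt_or_eq.mp h1 with h1 | h1
          · exact Or.inl (Or.inr ⟨h1, h2⟩)
          · exact Or.inr h1
      refine (card_le_card hsub).trans ((card_union_le _ _).trans ?_)
      refine Nat.add_le_add_left (card_le_one.mpr ?_) _
      intro x hx y hy
      simp only [mem_filter, mem_univ, true_and] at hx hy
      exact hidx (hx.trans hy.symm))
  have hg := good_of_ext (hf (a, b, ⟨j, by omega⟩))
  have hc : Fintype.card {x : Pt F // sel (S a b j) f x = 0} = n := by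
    rw [Fintype.card_subtype, ← e]
    congr 1
    ext x
    simp only [mem_filter, mem_univ, true_and, sel_eq_zero]
  exact ⟨_, hg.comp (Fintype.equivFinOfCardEq hc).symm⟩

theorem exists_good_large : ∃ N : ℕ, 0 < N ∧ ∀ n, N ≤ n → ∃ c : Fin n → Fin n → Fin 4, Good c := by
  obtain ⟨q₀, hq₀⟩ := final_bound' (c0 730 ^ 2) (pow_pos (c0_pos _) 2)
    (by nlinarith [c0_le 730, c0_pos 730])
  have key : ∀ k, q₀ ≤ k → ∀ n, (3 ^ (2 * k + 7)) ^ 3 ≤ n → n ≤ 729 * (3 ^ (2 * k + 7)) ^ 3 →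
      ∃ c : Fin n → Fin n → Fin 4, Good c := by
    intro k hk n hn1 hn2
    classical
    have : Fact (Nat.Prime 3) := ⟨by norm_num⟩
    let _ : Fintype (GaloisField 3 (2 * k + 7)) := Fintype.ofFinite _
    have hc : Fintype.card (GaloisField 3 (2 * k + 7)) = 3 ^ (2 * k + 7) := by
      rw [← Nat.card_eq_fintype_card, GaloisField.card 3 _ (by omega)]
    have hsq : ¬ IsSquare (-1 : GaloisField 3 (2 * k + 7)) := by
      rw [FiniteField.isSquare_neg_one_iff, hc, not_not]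
      have : 3 ^ (2 * k + 7) = 9 ^ k * 2187 := by rw [pow_add, pow_mul]; norm_num
      rw [this, Nat.mul_mod, Nat.pow_mod]
      norm_num
    have h2 : (2 : GaloisField 3 (2 * k + 7)) ≠ 0 := by
      intro h
      have : ((2 : ℕ) : GaloisField 3 (2 * k + 7)) = 0 := by exact_mod_cast h
      rw [CharP.cast_eq_zero_iff _ 3] at this
      norm_num at this
    have hpos : 0 < 3 ^ (2 * k) := by positivity
    have hk' : k ≤ 3 ^ (2 * k + 7) :=
      le_trans (by omega) (Nat.lt_pow_self (by norm_num : 1 < 3) (n := 2 * k + 7)).le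
    refine exists_good_range hsq h2 (m := 3 ^ (2 * k + 1)) (by rw [hc]; ring) ?_ ?_ n ?_ ?_
    · rw [hc, pow_add]
      omega
    · rw [hc]
      exact hq₀ _ (hk.trans hk')
    · rwa [hc]
    · rwa [hc]
  have cover : ∀ n, (3 ^ (2 * q₀ + 7)) ^ 3 ≤ n →
      ∃ k, q₀ ≤ k ∧ (3 ^ (2 * k + 7)) ^ 3 ≤ n ∧ n ≤ 729 * (3 ^ (2 * k + 7)) ^ 3 := by
    intro n hn
    induction n, hn using Nat.le_induction with
    | base => exact ⟨q₀, le_rfl, le_rfl, by omega⟩
    | succ n hn ih =>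
      obtain ⟨k, hk, h1, h2⟩ := ih
      by_cases h3 : n + 1 ≤ 729 * (3 ^ (2 * k + 7)) ^ 3
      · exact ⟨k, hk, by omega, h3⟩
      · have e : (3 ^ (2 * (k + 1) + 7)) ^ 3 = 729 * (3 ^ (2 * k + 7)) ^ 3 := by ring
        have hp : 0 < (3 ^ (2 * k + 7)) ^ 3 := by positivity
        exact ⟨k + 1, by omega, by omega, by omega⟩
  refine ⟨(3 ^ (2 * q₀ + 7)) ^ 3, by positivity, fun n hn => ?_⟩
  obtain ⟨k, hk, h1, h2⟩ := cover n hn
  exact key k hk n h1 h2

end Pool.Agent.Lib.MP_793ea6_al.Cof
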